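import Pool.Agent.Q209.Cat.Core

/-!
# MP_558b4e_nt: for every `n` there is an `m` coprime to `n` such that `m n` divides `C(m + n)`

`C k` is the `k`-th Catalan number and `S n` the set of all positive integers `m` coprime to `n` such
that `m n` divides `C (m + n)`. Theorem: `S n` is nonempty for every positive integer `n` (Q1 is true).
Moreover `S n` contains products `p q` of two primes `p < q` with `p` arbitrarily large.

Proof: let `N = p q + n` with primes `3 p / 2 < q < 2 p`. In base `p` the digits of `N` are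
`1, q - p, n`, in base `q` they are `p, n`, so there is a carry in `N + N` and `p`, `q` divide `C N`.
If `p = 1` and `q = -(2 n + 1)` modulo `n ^ (2 n + 4)` then `N = -(n + 1)` modulo this number, which
gives sufficiently many carries in base `l` for the primes `l ∣ n`. Such primes exist by the prime
number theorem for arithmetic progressions.
-/

set_option autoImplicit false

namespace Pool.Agent.Results.MP_558b4e_nt.FullAnswer

/-- The `k`-th Catalan number. -/
def C (k : ℕ) : ℕ := Nat.choose (2 * k) k / (k + 1)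

/-- The set `S(n)` of the problem. -/
def S (n : ℕ) : Set ℕ := {m | 0 < m ∧ Nat.gcd m n = 1 ∧ m * n ∣ C (m + n)}

/-- `S(n)` is nonempty for all positive `n`; it contains products of two arbitrarily large primes. -/
theorem result : ∀ n : ℕ, 0 < n → (S n).Nonempty ∧
    ∀ B : ℕ, ∃ p q : ℕ, p.Prime ∧ q.Prime ∧ B < p ∧ p < q ∧ p * q ∈ S n := by
  intro n hn
  have h : ∀ B : ℕ, ∃ p q : ℕ, p.Prime ∧ q.Prime ∧ B < p ∧ p < q ∧ p * q ∈ S n := by
    intro B
    obtain ⟨p, q, hp, hq, hB, hpq, hc, hd⟩ := Pool.Agent.Q209.Cat.main n hn B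
    refine ⟨p, q, hp, hq, hB, hpq, Nat.mul_pos hp.pos hq.pos, hc, ?_⟩
    show p * q * n ∣ Nat.choose (2 * (p * q + n)) (p * q + n) / (p * q + n + 1)
    rw [← Nat.centralBinom_eq_two_mul_choose, ← catalan_eq_centralBinom_div]
    exact hd
  obtain ⟨p, q, -, -, -, -, h1⟩ := h 0
  exact ⟨⟨p * q, h1⟩, h⟩

end Pool.Agent.Results.MP_558b4e_nt.FullAnswer
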